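import Mathlib
import Pool.Agent.H806R3.BesE

/-!
# A compact set of vanishing Hausdorff measure with positive Besov capacity

`n = 1`, `α = 1/4`, `p = 2`: there is a compact `K ⊆ ℝ` with `H^{n - αp}(K) = 0` and
`A_{α,p,q}(K) > 0` for every `1 ≤ q < p`.
-/

set_option autoImplicit false

namespace Pool.Agent.Results.MP_9e0505_an.NullSetPositiveCapacity

open MeasureTheory Filter Topology Pool.Agent.H806R3.Bes
open scoped ENNReal

/-- the Besov norm `|u|_{α,p,q}` on `ℝ` for `0 < α < 1`, `1 ≤ p, q < ∞` -/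
noncomputable def besovNorm (α p q : ℝ) (u : ℝ → ℝ) : ℝ≥0∞ :=
  eLpNorm u (ENNReal.ofReal p) volume +
    (∫⁻ h : ℝ, (eLpNorm (fun x => u (x + h) - u x) (ENNReal.ofReal p) volume
      / ENNReal.ofReal (|h| ^ α)) ^ q / ENNReal.ofReal |h|) ^ (1 / q)

/-- the Besov capacity `A_{α,p,q}` of a subset of `ℝ` -/
noncomputable def besovCap (α p q : ℝ) (K : Set ℝ) : ℝ≥0∞ :=
  ⨅ (u : ℝ → ℝ) (_ : ContDiff ℝ (⊤ : ℕ∞) u) (_ : HasCompactSupport u) (_ : ∀ x ∈ K, 1 ≤ u x),
    (besovNorm α p q u) ^ p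

/-- the union of the intervals coded by a word set -/
def cover (a : ℕ) (X : Finset ℕ) : Set ℝ :=
  ⋃ c ∈ X, Set.Icc ((c : ℝ) / 4 ^ a) (((c : ℝ) + 1) / 4 ^ a)

lemma isCompact_cover (a : ℕ) (X : Finset ℕ) : IsCompact (cover a X) :=
  X.isCompact_biUnion fun _ _ => isCompact_Icc

lemma Icc_prefix {l a : ℕ} (hl : l ≤ a) (c : ℕ) :
    Set.Icc ((c : ℝ) / 4 ^ a) (((c : ℝ) + 1) / 4 ^ a) ⊆
      Set.Icc (((c / 4 ^ (a - l) : ℕ) : ℝ) / 4 ^ l) ((((c / 4 ^ (a - l) : ℕ) : ℝ) + 1) / 4 ^ l) := by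
  set q := 4 ^ (a - l) with hq
  have hq0 : 0 < q := by positivity
  have hqr : (0 : ℝ) < q := by exact_mod_cast hq0
  have h4 : (4 : ℝ) ^ a = 4 ^ l * q := by
    rw [hq]; push_cast; rw [← pow_add]; congr 1; omega
  have hdm := Nat.div_add_mod c q
  have hlt := Nat.mod_lt c hq0
  have h1 : q * (c / q) ≤ c := by omega
  have h2 : c + 1 ≤ q * (c / q) + q := by omega
  have h1' : (q : ℝ) * ((c / q : ℕ) : ℝ) ≤ c := by exact_mod_cast h1
  have h2' : (c : ℝ) + 1 ≤ q * ((c / q : ℕ) : ℝ) + q := by exact_mod_cast h2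
  have hl0 : (0 : ℝ) < 4 ^ l := by positivity
  refine Set.Icc_subset_Icc ?_ ?_
  · rw [h4, div_le_div_iff₀ hl0 (by positivity)]
    nlinarith [mul_le_mul_of_nonneg_left h1' hl0.le]
  · rw [h4, div_le_div_iff₀ (by positivity) hl0]
    nlinarith [mul_le_mul_of_nonneg_left h2' hl0.le]

lemma half_le_avg {u : ℝ → ℝ} (hu : Continuous u) (a c : ℕ)
    (h : ∀ x ∈ Set.Icc ((c : ℝ) / 4 ^ a) (((c : ℝ) + 1) / 4 ^ a), 1 / 2 ≤ u x) :
    1 / 2 ≤ avg u a c := by
  unfold avg
  have hp : (0 : ℝ) < 4 ^ a := by positivity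
  have hle : (c : ℝ) / 4 ^ a ≤ ((c : ℝ) + 1) / 4 ^ a := by gcongr; linarith
  have h1 : ∫ x in ((c : ℝ) / 4 ^ a)..(((c : ℝ) + 1) / 4 ^ a), (1 / 2 : ℝ)
      ≤ ∫ x in ((c : ℝ) / 4 ^ a)..(((c : ℝ) + 1) / 4 ^ a), u x :=
    intervalIntegral.integral_mono_on hle (continuous_const.intervalIntegrable _ _)
      (hu.intervalIntegrable _ _) h
  rw [intervalIntegral.integral_const, smul_eq_mul] at h1
  have h2 : (((c : ℝ) + 1) / 4 ^ a - (c : ℝ) / 4 ^ a) * (1 / 2) = 1 / 4 ^ a * (1 / 2) := by ring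
  rw [h2] at h1
  calc (1 / 2 : ℝ) = 4 ^ a * (1 / 4 ^ a * (1 / 2)) := by field_simp
    _ ≤ _ := mul_le_mul_of_nonneg_left h1 hp.le

lemma rpow_half (l : ℕ) : (ENNReal.ofReal (1 / 4 ^ l)) ^ ((1 : ℝ) - (1 / 4) * 2)
    = ENNReal.ofReal ((1 / 2) ^ l) := by
  have h0 : (0 : ℝ) ≤ 1 / 4 ^ l := by positivity
  rw [ENNReal.ofReal_rpow_of_nonneg h0 (by norm_num)]
  congr 1
  have h1 : (1 / 4 ^ l : ℝ) = ((1 / 2) ^ l) ^ (2 : ℝ) := by
    rw [Real.rpow_two, ← pow_mul, mul_comm, pow_mul, ← one_div_pow]; norm_num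
  rw [h1, ← Real.rpow_mul (by positivity)]
  norm_num

lemma tendsto_log : Tendsto (fun k : ℕ => Nat.log 2 (k + 1 + 1)) atTop atTop := by
  rw [tendsto_atTop]
  intro b
  filter_upwards [eventually_ge_atTop (2 ^ b)] with k hk
  exact Nat.le_log_of_pow_le (by norm_num) (by omega)

/-- **Main theorem.** -/
theorem result : ∃ K : Set ℝ, IsCompact K ∧
    Measure.hausdorffMeasure ((1 : ℝ) - (1 / 4) * 2) K = 0 ∧
    ∀ q : ℝ, 1 ≤ q → q < 2 → 0 < besovCap (1 / 4) 2 q K := by
  set E : ℕ → Set ℝ := fun k => cover (AA k) (XX k) with hE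
  have hnest : ∀ k, E (k + 1) ⊆ E k := by
    intro k x hx
    simp only [hE, cover, Set.mem_iUnion] at hx ⊢
    obtain ⟨c, hc, hx⟩ := hx
    exact ⟨_, nest_XX k c hc, Icc_prefix (AA_strict k).le c hx⟩
  have hcl : ∀ k, IsClosed (E k) := fun k => (isCompact_cover _ _).isClosed
  set K : Set ℝ := ⋂ k, E k with hK
  have hKE : ∀ k, K ⊆ E k := fun k => Set.iInter_subset _ k
  refine ⟨K, (isCompact_cover (AA 0) (XX 0)).of_isClosed_subset (isClosed_iInter hcl) (hKE 0),
    ?_, ?_⟩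
  · -- Hausdorff measure
    choose V hV1 hV2 hV3 using cov_XX
    have hterm : ∀ k, ∀ p ∈ V k, (1 / 2 : ℝ) ^ p.1 ≤ (1 / 2) ^ Nat.log 2 (k + 1 + 1) := by
      intro k p hp
      exact (Finset.single_le_sum (f := fun p : ℕ × ℕ => (1 / 2 : ℝ) ^ p.1)
        (fun i _ => by positivity) hp).trans (hV2 k)
    have hkl : ∀ k, ∀ p ∈ V k, Nat.log 2 (k + 1 + 1) ≤ p.1 := by
      intro k p hp
      by_contra hlt
      push Not at hlt
      have := hterm k p hp
      have h2 : (1 / 2 : ℝ) ^ Nat.log 2 (k + 1 + 1) < (1 / 2) ^ p.1 :=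
        pow_lt_pow_right_of_lt_one₀ (by norm_num) (by norm_num) hlt
      linarith
    let T : ∀ k, {p // p ∈ V k} → Set ℝ := fun k p =>
      Set.Icc ((p.1.2 : ℝ) / 4 ^ p.1.1) (((p.1.2 : ℝ) + 1) / 4 ^ p.1.1)
    have hdiam : ∀ k p, Metric.ediam (T k p) = ENNReal.ofReal (1 / 4 ^ p.1.1) := by
      intro k p
      simp only [T]
      rw [Real.ediam_Icc]
      congr 1; ring
    have hmain := Measure.hausdorffMeasure_le_liminf_sum ((1 : ℝ) - (1 / 4) * 2) K
      (l := atTop) (fun k : ℕ => ENNReal.ofReal (1 / 4 ^ Nat.log 2 (k + 1 + 1))) ?_ T ?_ ?_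
    · refine le_antisymm (hmain.trans ?_) bot_le
      have hle : ∀ k, ∑ p, Metric.ediam (T k p) ^ ((1 : ℝ) - (1 / 4) * 2)
          ≤ ENNReal.ofReal ((1 / 2) ^ Nat.log 2 (k + 1 + 1)) := by
        intro k
        have h1 : ∑ p, Metric.ediam (T k p) ^ ((1 : ℝ) - (1 / 4) * 2)
            = ∑ p ∈ V k, ENNReal.ofReal ((1 / 2) ^ p.1) := by
          rw [← Finset.sum_attach (V k)]
          refine Finset.sum_congr rfl fun p _ => ?_
          rw [hdiam, rpow_half]
        rw [h1, ← ENNReal.ofReal_sum_of_nonneg (fun p _ => by positivity)]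
        exact ENNReal.ofReal_le_ofReal (hV2 k)
      have hlim : Tendsto (fun k : ℕ => ENNReal.ofReal ((1 / 2) ^ Nat.log 2 (k + 1 + 1)))
          atTop (𝓝 0) := by
        rw [← ENNReal.ofReal_zero]
        exact ENNReal.tendsto_ofReal ((tendsto_pow_atTop_nhds_zero_of_lt_one
          (r := (1 / 2 : ℝ)) (by norm_num) (by norm_num)).comp tendsto_log)
      calc liminf (fun k => ∑ p, Metric.ediam (T k p) ^ ((1 : ℝ) - (1 / 4) * 2)) atTop
          ≤ liminf (fun k : ℕ => ENNReal.ofReal ((1 / 2) ^ Nat.log 2 (k + 1 + 1))) atTop :=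
            liminf_le_liminf (Eventually.of_forall hle)
        _ = 0 := hlim.liminf_eq
    · rw [← ENNReal.ofReal_zero]
      refine ENNReal.tendsto_ofReal ?_
      have := (tendsto_pow_atTop_nhds_zero_of_lt_one (r := (1 / 4 : ℝ))
        (by norm_num) (by norm_num)).comp tendsto_log
      refine this.congr fun k => ?_
      simp only [Function.comp]
      rw [div_pow, one_pow]
    · refine Eventually.of_forall fun k p => ?_
      rw [hdiam]
      refine ENNReal.ofReal_le_ofReal ?_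
      apply one_div_le_one_div_of_le (by positivity)
      exact pow_le_pow_right₀ (by norm_num) (hkl k p.1 p.2)
    · refine Eventually.of_forall fun k => ?_
      intro x hx
      have hxE := hKE (k + 1) hx
      simp only [hE, cover, Set.mem_iUnion] at hxE
      obtain ⟨c, hc, hx2⟩ := hxE
      obtain ⟨p, hp, he⟩ := hV3 k c hc
      rw [Set.mem_iUnion]
      refine ⟨⟨p, hp⟩, ?_⟩
      have := Icc_prefix (hV1 k p hp) c hx2
      rw [he] at this
      exact this
  · -- capacity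
    intro q hq hq2
    obtain ⟨C, hC0, hCt, hC⟩ := exists_const hq hq2
    have hbound : ∀ u : ℝ → ℝ, ContDiff ℝ (⊤ : ℕ∞) u → HasCompactSupport u →
        (∀ x ∈ K, 1 ≤ u x) → ENNReal.ofReal (1 / 4) / C ≤ besovNorm (1 / 4) 2 q u := by
      intro u hu hs hK1
      have huc : Continuous u := hu.continuous
      have hm : MemLp u 2 volume := huc.memLp_of_hasCompactSupport hs
      have hex : ∃ k, ∀ x ∈ E k, 1 / 2 ≤ u x := by
        by_contra hcon
        push Not at hcon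
        have hcomp := IsCompact.nonempty_iInter_of_sequence_nonempty_isCompact_isClosed
          (fun k => E k ∩ {x | u x ≤ 1 / 2})
          (fun k => Set.inter_subset_inter_left _ (hnest k))
          (fun k => by
            obtain ⟨x, hx, hlt⟩ := hcon k
            exact ⟨x, hx, hlt.le⟩)
          ((isCompact_cover (AA 0) (XX 0)).inter_right (isClosed_le huc continuous_const))
          (fun k => (hcl k).inter (isClosed_le huc continuous_const))
        obtain ⟨x, hx⟩ := hcomp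
        rw [Set.mem_iInter] at hx
        have hxK : x ∈ K := Set.mem_iInter.2 fun k => (hx k).1
        have h1 := hK1 x hxK
        have h2 : u x ≤ 1 / 2 := (hx 0).2
        linarith
      obtain ⟨k, hk⟩ := hex
      have hquar := hC u huc hm k (fun c hc => half_le_avg huc _ _
        (fun x hx => hk x (by
          simp only [hE, cover, Set.mem_iUnion]
          exact ⟨c, hc, hx⟩)))
      have hbn : besovNorm (1 / 4) 2 q u = eLpNorm u 2 volume
          + (∫⁻ h, Pool.Agent.H806R3.Bes.kerq q u h) ^ (1 / q) := by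
        unfold besovNorm Pool.Agent.H806R3.Bes.kerq om
        have e2 : ENNReal.ofReal 2 = 2 := by norm_num
        rw [e2]
      rw [hbn]
      rw [ENNReal.div_le_iff_le_mul (Or.inl hC0) (Or.inl hCt), mul_comm]
      exact hquar
    refine lt_of_lt_of_le (b := (ENNReal.ofReal (1 / 4) / C) ^ (2 : ℝ)) ?_ ?_
    · refine ENNReal.rpow_pos ?_ ?_
      · exact ENNReal.div_pos (ENNReal.ofReal_pos.2 (by norm_num)).ne' hCt
      · exact ENNReal.div_ne_top ENNReal.ofReal_ne_top hC0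
    · unfold besovCap
      refine le_iInf fun u => le_iInf fun hu => le_iInf fun hs => le_iInf fun hK1 => ?_
      exact ENNReal.rpow_le_rpow (hbound u hu hs hK1) (by norm_num)

end Pool.Agent.Results.MP_9e0505_an.NullSetPositiveCapacity
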